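import Pool.Agent.Zk64.Alt.Tab1
import Pool.Agent.Zk64.Alt.Tab7
import Pool.Agent.Zk64.Alt.Tab5

/-!
# The free alternative algebra of countable rank is not separated
-/

set_option autoImplicit false

namespace Pool.Agent.Results.MP_c4e11e_al.NotSeparated

open Pool.Agent.Zk64.Alt

lemma of_domain (K k : Type*) [CommRing K] [CommRing k] [IsDomain k] [Algebra K k]
    (h6 : (6 : k) ≠ 0) : ¬ Separated K (FreeAlt K ℕ) := by
  have h2 : (2 : k) ≠ 0 := fun h => h6 (by linear_combination 3 * h)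
  have h3 : (3 : k) ≠ 0 := fun h => h6 (by linear_combination 2 * h)
  have hp : ∀ m : ℕ, (6 : k) ^ m ≠ 0 := fun m => pow_ne_zero m h6
  by_cases h5 : (5 : k) = 0
  · refine not_separated_five (k := k) (by exact_mod_cast h5) fun m => ?_
    have e : (2 : k) * 6 ^ m * (Nat.factorial 4 * Nat.factorial (7 - 4) : ℕ) * ((4 : ℤ) : k) =
        2 ^ 7 * 3 ^ 2 * 6 ^ m := by
      norm_num [Nat.factorial]; ring
    rw [e]
    exact mul_ne_zero (mul_ne_zero (pow_ne_zero _ h2) (pow_ne_zero _ h3)) (hp m)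
  by_cases h7 : (7 : k) = 0
  · refine not_separated_seven (k := k) h7 fun m => ?_
    have e : (2 : k) * 6 ^ m * (Nat.factorial 6 * Nat.factorial (7 - 6) : ℕ) * ((2 : ℤ) : k) =
        2 ^ 6 * 3 ^ 2 * 5 * 6 ^ m := by
      norm_num [Nat.factorial]; ring
    rw [e]
    exact mul_ne_zero (mul_ne_zero (mul_ne_zero (pow_ne_zero _ h2) (pow_ne_zero _ h3)) h5) (hp m)
  · refine not_separated_one (k := k) fun m => ?_
    have e : (2 : k) * 6 ^ m * (Nat.factorial 7 * Nat.factorial (7 - 7) : ℕ) * ((72 : ℤ) : k) =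
        2 ^ 8 * 3 ^ 4 * 5 * 7 * 6 ^ m := by
      norm_num [Nat.factorial]; ring
    rw [e]
    exact mul_ne_zero (mul_ne_zero (mul_ne_zero (mul_ne_zero (pow_ne_zero _ h2)
      (pow_ne_zero _ h3)) h5) h7) (hp m)

/-- If `6` is not nilpotent in `Φ`, then the free alternative `Φ`-algebra on countably many
generators is not separated: its associator ideal meets its largest nuclear ideal non-trivially. -/
theorem result (Φ : Type*) [CommRing Φ] (h : ¬ IsNilpotent (6 : Φ)) :
    ¬ Separated Φ (FreeAlt Φ ℕ) := by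
  have h1 : (6 : Φ) ∉ nilradical Φ := fun h' => h (mem_nilradical.mp h')
  rw [nilradical_eq_sInf, Ideal.mem_sInf] at h1
  push Not at h1
  obtain ⟨P, hP, h6⟩ := h1
  have hP' : P.IsPrime := hP
  have : IsDomain (Φ ⧸ P) := Ideal.Quotient.isDomain P
  refine of_domain Φ (Φ ⧸ P) fun h0 => h6 ?_
  rw [← Ideal.Quotient.eq_zero_iff_mem, ← h0]
  exact map_ofNat _ 6

end Pool.Agent.Results.MP_c4e11e_al.NotSeparated
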